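import Pool.Agent.Lib.MP_2eed13_lc.LCA.Base

/-!
# GOTO: while programs are simulated by register machines
-/

set_option autoImplicit false

namespace Pool.Agent.Lib.MP_2eed13_lc.LCA.H36

open Relation

/-- machine fragments; the value `none` of `next` is the exit -/
structure Frag where
  L : Type
  fin : Finite L
  ent : L
  reg : L → ℕ
  kind : L → Kind
  next : L → Bool → Option L

/-- a single increment -/
def fInc (i : ℕ) : Frag where
  L := Unit
  fin := inferInstance
  ent := ()
  reg _ := i
  kind _ := .inc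
  next _ _ := none

/-- a decrement -/
def fDec (i : ℕ) : Frag where
  L := Bool
  fin := inferInstance
  ent := false
  reg _ := i
  kind b := bif b then .dec else .test
  next b z := bif b then none else bif z then none else some true

/-- composition -/
def fSeq (A B : Frag) : Frag where
  L := A.L ⊕ B.L
  fin := by
    have := A.fin
    have := B.fin
    infer_instance
  ent := .inl A.ent
  reg
    | .inl l => A.reg l
    | .inr l => B.reg l
  kind
    | .inl l => A.kind l
    | .inr l => B.kind l
  next
    | .inl l, z => some (match A.next l z with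
        | some l' => .inl l'
        | none => .inr B.ent)
    | .inr l, z => (B.next l z).map .inr

/-- loops -/
def fLoop (i : ℕ) (A : Frag) : Frag where
  L := Option A.L
  fin := by
    have := A.fin
    infer_instance
  ent := none
  reg
    | none => i
    | some l => A.reg l
  kind
    | none => .test
    | some l => A.kind l
  next
    | none, z => bif z then none else some (some A.ent)
    | some l, z => some (A.next l z)

/-- the fragment of a program -/
def frag : Cmd → Frag
  | .inc i => fInc i
  | .dec i => fDec i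
  | .seq p q => fSeq (frag p) (frag q)
  | .loop i p => fLoop i (frag p)

/-- safe steps of a fragment -/
def SS (F : Frag) (Bd : ℕ) (x y : Option F.L × (ℕ → ℕ)) : Prop :=
  ∃ l, x.1 = some l ∧
    (F.kind l = Kind.inc → F.reg l ≠ 0 ∧ x.2 (F.reg l) + 1 < Bd) ∧
    (F.kind l = Kind.dec → x.2 (F.reg l) ≠ 0) ∧
    y.1 = F.next l (decide (x.2 (F.reg l) = 0)) ∧
    y.2 = Function.update x.2 (F.reg l) ((F.kind l).app (x.2 (F.reg l)))

theorem run_seq_left (A B : Frag) (Bd : ℕ) {x y : Option A.L × (ℕ → ℕ)}
    (h : ReflTransGen (SS A Bd) x y) :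
    ReflTransGen (SS (fSeq A B) Bd) (some (x.1.elim (.inr B.ent) .inl), x.2)
      (some (y.1.elim (.inr B.ent) .inl), y.2) := by
  refine ReflTransGen.lift (fun x : Option A.L × (ℕ → ℕ) =>
    ((some (x.1.elim (.inr B.ent) .inl), x.2) : Option (fSeq A B).L × (ℕ → ℕ))) ?_ _ _ h
  rintro ⟨x1, x2⟩ ⟨y1, y2⟩ ⟨l, h1, h2, h3, h4, h5⟩
  simp only at h1 h2 h3 h4 h5
  subst h1 h4 h5
  refine ⟨.inl l, rfl, h2, h3, ?_, rfl⟩
  have key : ∀ o : Option A.L, (some (o.elim (Sum.inr B.ent) Sum.inl) : Option (A.L ⊕ B.L)) =
      some (match o with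
        | some l' => Sum.inl l'
        | none => Sum.inr B.ent) := by
    rintro (_ | l') <;> rfl
  exact key _

theorem run_seq_right (A B : Frag) (Bd : ℕ) {x y : Option B.L × (ℕ → ℕ)}
    (h : ReflTransGen (SS B Bd) x y) :
    ReflTransGen (SS (fSeq A B) Bd) (x.1.map .inr, x.2) (y.1.map .inr, y.2) := by
  refine ReflTransGen.lift (fun x : Option B.L × (ℕ → ℕ) =>
    ((x.1.map .inr, x.2) : Option (fSeq A B).L × (ℕ → ℕ))) ?_ _ _ h
  rintro ⟨x1, x2⟩ ⟨y1, y2⟩ ⟨l, h1, h2, h3, h4, h5⟩
  simp only at h1 h2 h3 h4 h5
  subst h1 h4 h5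
  exact ⟨.inr l, rfl, h2, h3, rfl, rfl⟩

theorem run_loop (i : ℕ) (A : Frag) (Bd : ℕ) {x y : Option A.L × (ℕ → ℕ)}
    (h : ReflTransGen (SS A Bd) x y) :
    ReflTransGen (SS (fLoop i A) Bd) (some x.1, x.2) (some y.1, y.2) := by
  refine ReflTransGen.lift (fun x : Option A.L × (ℕ → ℕ) =>
    ((some x.1, x.2) : Option (fLoop i A).L × (ℕ → ℕ))) ?_ _ _ h
  rintro ⟨x1, x2⟩ ⟨y1, y2⟩ ⟨l, h1, h2, h3, h4, h5⟩
  simp only at h1 h2 h3 h4 h5
  subst h1 h4 h5
  exact ⟨some l, rfl, h2, h3, rfl, rfl⟩

theorem run_frag {Bd : ℕ} {p : Cmd} {σ τ : ℕ → ℕ} (h : Exec Bd p σ τ) :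
    ReflTransGen (SS (frag p) Bd) (some (frag p).ent, σ) (none, τ) := by
  induction h with
  | @inc i σ hi hb =>
    exact ReflTransGen.single ⟨(), rfl, fun _ => ⟨hi, hb⟩, fun h => absurd h (by simp [frag, fInc]),
      rfl, rfl⟩
  | @dec i σ =>
    by_cases hz : σ i = 0
    · refine ReflTransGen.single ⟨false, rfl, fun h => absurd h (by simp [frag, fDec]),
        fun h => absurd h (by simp [frag, fDec]), ?_, ?_⟩
      · show none = bif false then none else bif decide (σ i = 0) then none else some true
        rw [decide_eq_true hz]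
        rfl
      · show Function.update σ i (σ i - 1) = Function.update σ i (σ i)
        rw [hz]
    · refine ReflTransGen.head (b := (some true, σ)) ?_ (ReflTransGen.single ?_)
      · refine ⟨false, rfl, fun h => absurd h (by simp [frag, fDec]),
          fun h => absurd h (by simp [frag, fDec]), ?_, ?_⟩
        · show some true = bif false then none else bif decide (σ i = 0) then none else some true
          rw [decide_eq_false hz]
          rfl
        · show σ = Function.update σ i (σ i)
          rw [Function.update_eq_self]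
      · exact ⟨true, rfl, fun h => absurd h (by simp [frag, fDec]), fun _ => hz, rfl, rfl⟩
  | @seq p q σ τ υ _ _ ih1 ih2 =>
    exact ReflTransGen.trans (run_seq_left (frag p) (frag q) Bd ih1)
      (run_seq_right (frag p) (frag q) Bd ih2)
  | @loop_zero i p σ hz =>
    refine ReflTransGen.single ⟨none, rfl, fun h => absurd h (by simp [frag, fLoop]),
      fun h => absurd h (by simp [frag, fLoop]), ?_, ?_⟩
    · show none = bif decide (σ i = 0) then none else some (some (frag p).ent)
      rw [decide_eq_true hz]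
      rfl
    · show σ = Function.update σ i (σ i)
      rw [Function.update_eq_self]
  | @loop_pos i p σ τ υ hz _ _ ih1 ih2 =>
    refine ReflTransGen.head (b := (some (some (frag p).ent), σ)) ?_
      (ReflTransGen.trans (run_loop i (frag p) Bd ih1) ih2)
    refine ⟨none, rfl, fun h => absurd h (by simp [frag, fLoop]),
      fun h => absurd h (by simp [frag, fLoop]), ?_, ?_⟩
    · show some (some (frag p).ent) = bif decide (σ i = 0) then none else some (some (frag p).ent)
      rw [decide_eq_false hz]
      rfl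
    · show σ = Function.update σ i (σ i)
      rw [Function.update_eq_self]

/-- the whole machine: the fragment, the final test (`0`), acceptance (`1`), rejection (`2`) -/
def gm (F : Frag) : Goto where
  L := F.L ⊕ Fin 3
  finL := by
    have := F.fin
    infer_instance
  reg
    | .inl l => F.reg l
    | .inr _ => 1
  kind
    | .inl l => F.kind l
    | .inr _ => .test
  next
    | .inl l, z => (F.next l z).elim (.inr 0) .inl
    | .inr 0, z => bif z then .inr 2 else .inr 1
    | .inr 1, _ => .inr 1
    | .inr 2, _ => .inr 2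

theorem run_gm (F : Frag) (Bd : ℕ) {x y : Option F.L × (ℕ → ℕ)} (h : ReflTransGen (SS F Bd) x y) :
    ∃ t, (gm F).step^[t] (x.1.elim (.inr 0) .inl, x.2) = (y.1.elim (.inr 0) .inl, y.2) ∧
      ∀ t' < t, (gm F).Safe Bd ((gm F).step^[t'] (x.1.elim (.inr 0) .inl, x.2)) := by
  induction h with
  | refl => exact ⟨0, rfl, fun t' ht' => absurd ht' (Nat.not_lt_zero _)⟩
  | @tail y z _ hst ih =>
    obtain ⟨t, h1, h2⟩ := ih
    obtain ⟨y1, y2⟩ := y
    obtain ⟨z1, z2⟩ := z
    obtain ⟨l, e1, e2, e3, e4, e5⟩ := hst
    simp only at e1 e2 e3 e4 e5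
    subst e1 e4 e5
    refine ⟨t + 1, ?_, ?_⟩
    · rw [Function.iterate_succ_apply', h1]
      rfl
    · intro t' ht'
      rcases Nat.lt_succ_iff_lt_or_eq.1 ht' with h | h
      · exact h2 t' h
      · subst h
        rw [h1]
        exact ⟨e2, e3⟩

theorem goto : GotoStatement := by
  intro p
  refine ⟨gm (frag p), .inl (frag p).ent, .inr 1, .inr 2, ?_, fun b => rfl, fun b => rfl, rfl, rfl,
    ?_⟩
  · intro h
    have h1 := Sum.inr.inj h
    exact absurd h1 (by decide)
  intro Bd σ τ hex
  obtain ⟨t, h1, h2⟩ := run_gm (frag p) Bd (run_frag hex)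
  have h1 : (gm (frag p)).step^[t] (.inl (frag p).ent, σ) = (.inr 0, τ) := h1
  have h2 : ∀ t' < t, (gm (frag p)).Safe Bd ((gm (frag p)).step^[t'] (.inl (frag p).ent, σ)) := h2
  -- after time `t` the label is one of the three final ones
  have h3 : ∀ s, ∃ k, ((gm (frag p)).step^[t + s] (.inl (frag p).ent, σ)).1 = .inr k := by
    intro s
    induction s with
    | zero =>
      refine ⟨0, ?_⟩
      rw [add_zero, h1]
    | succ s ih =>
      obtain ⟨k, hk⟩ := ih
      rw [← add_assoc, Function.iterate_succ_apply']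
      show ∃ k', (gm (frag p)).next _ _ = _
      rw [hk]
      fin_cases k
      · rcases hb : (decide (((gm (frag p)).step^[t + s] (.inl (frag p).ent, σ)).2
          ((gm (frag p)).reg (.inr 0)) = 0)) with _ | _
        · refine ⟨1, ?_⟩
          show (gm (frag p)).next (.inr 0) _ = _
          erw [hb]
          rfl
        · refine ⟨2, ?_⟩
          show (gm (frag p)).next (.inr 0) _ = _
          erw [hb]
          rfl
      · exact ⟨1, rfl⟩
      · exact ⟨2, rfl⟩
  refine ⟨fun t' => ?_, t + 1, ?_⟩
  · by_cases ht' : t' < t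
    · exact h2 t' ht'
    · obtain ⟨s, rfl⟩ := Nat.exists_eq_add_of_le (not_lt.1 ht')
      obtain ⟨k, hk⟩ := h3 s
      refine ⟨fun h => ?_, fun h => ?_⟩
      · rw [hk] at h
        exact absurd h (by simp [gm])
      · rw [hk] at h
        exact absurd h (by simp [gm])
  · rw [Function.iterate_succ_apply', h1]
    show (gm (frag p)).next (.inr 0) (decide (τ 1 = 0)) = _
    by_cases hz : τ 1 = 0
    · rw [decide_eq_true hz]
      exact (if_pos hz).symm
    · rw [decide_eq_false hz]
      exact (if_neg hz).symm

end Pool.Agent.Lib.MP_2eed13_lc.LCA.H36
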